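import Pool.Agent.Helper24.EG.Goals

/-!
Project EG (MP_98cfca_co Q2), packet EG-N1.
-/

set_option autoImplicit false

namespace Pool.Agent.Helper36.EG

open Finset Filter Topology Pool.Agent.Helper52 Pool.Agent.Helper24.EG

theorem term_le (σ : ℝ) (h0 : 0 ≤ σ) (h1 : σ < 1) (n k : ℕ) (hk : 2 * k ≤ n) :
    (n.choose k : ℝ) * (σ ^ 2) ^ (k * (n - k)) ≤ ((n : ℝ) * σ ^ n) ^ k := by
  have h2 : (n.choose k : ℝ) ≤ (n : ℝ) ^ k := by
    exact_mod_cast Nat.choose_le_pow n k
  have h3 : (σ ^ 2) ^ (k * (n - k)) ≤ (σ ^ n) ^ k := by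
    rw [← pow_mul, ← pow_mul]
    refine pow_le_pow_of_le_one h0 h1.le ?_
    have h4 : n ≤ 2 * (n - k) := by omega
    calc n * k ≤ 2 * (n - k) * k := Nat.mul_le_mul_right k h4
      _ = 2 * (k * (n - k)) := by ring
  rw [mul_pow]
  exact mul_le_mul h2 h3 (by positivity) (by positivity)

theorem sum_bound (σ : ℝ) (h0 : 0 ≤ σ) (h1 : σ < 1) : ∃ K : ℝ, 1 ≤ K ∧ ∀ n : ℕ,
    ∑ k ∈ range (n + 1), (n.choose k : ℝ) * (σ ^ 2) ^ (k * (n - k)) ≤ K := by
  have hlim := tendsto_self_mul_const_pow_of_lt_one h0 h1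
  have hev : ∀ᶠ n : ℕ in atTop, (n : ℝ) * σ ^ n ≤ 1 / 2 :=
    (hlim.eventually (ge_mem_nhds (by norm_num : (0 : ℝ) < 1 / 2)))
  obtain ⟨n0, hn0⟩ := eventually_atTop.mp hev
  refine ⟨2 ^ n0 + 4, ?_, fun n => ?_⟩
  · have : (0 : ℝ) < 2 ^ n0 := by positivity
    linarith
  rcases le_or_gt n0 n with hn | hn
  · set x : ℝ := (n : ℝ) * σ ^ n with hx
    have hx0 : 0 ≤ x := by positivity
    have hx1 : x ≤ 1 / 2 := hn0 n hn
    have hterm : ∀ k ∈ range (n + 1),
        (n.choose k : ℝ) * (σ ^ 2) ^ (k * (n - k)) ≤ x ^ k + x ^ (n - k) := by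
      intro k hk
      have hkn : k ≤ n := Nat.lt_succ_iff.mp (mem_range.mp hk)
      rcases le_or_gt (2 * k) n with h | h
      · have h5 := term_le σ h0 h1 n k h
        have h6 : 0 ≤ x ^ (n - k) := by positivity
        linarith
      · have h5 := term_le σ h0 h1 n (n - k) (by omega)
        rw [Nat.choose_symm hkn, Nat.sub_sub_self hkn, Nat.mul_comm (n - k) k] at h5
        have h6 : 0 ≤ x ^ k := by positivity
        linarith
    have hgeo : ∑ k ∈ range (n + 1), x ^ k ≤ 2 := by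
      calc ∑ k ∈ range (n + 1), x ^ k ≤ ∑ k ∈ range (n + 1), (1 / 2 : ℝ) ^ k :=
            sum_le_sum fun k _ => pow_le_pow_left₀ hx0 hx1 k
        _ ≤ 2 := sum_geometric_two_le (n + 1)
    have hflip : ∑ k ∈ range (n + 1), x ^ (n - k) = ∑ k ∈ range (n + 1), x ^ k :=
      sum_flip (fun k => x ^ k)
    calc ∑ k ∈ range (n + 1), (n.choose k : ℝ) * (σ ^ 2) ^ (k * (n - k))
        ≤ ∑ k ∈ range (n + 1), (x ^ k + x ^ (n - k)) := sum_le_sum hterm
      _ ≤ 4 := by
          rw [sum_add_distrib, hflip]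
          linarith
      _ ≤ 2 ^ n0 + 4 := by
          have : (0 : ℝ) < 2 ^ n0 := by positivity
          linarith
  · have h2 : ∑ k ∈ range (n + 1), (n.choose k : ℝ) * (σ ^ 2) ^ (k * (n - k)) ≤
        ∑ k ∈ range (n + 1), (n.choose k : ℝ) := by
      refine sum_le_sum fun k _ => ?_
      have h3 : (σ ^ 2) ^ (k * (n - k)) ≤ 1 :=
        pow_le_one₀ (by positivity) (pow_le_one₀ h0 h1.le)
      calc (n.choose k : ℝ) * (σ ^ 2) ^ (k * (n - k)) ≤ (n.choose k : ℝ) * 1 :=
            mul_le_mul_of_nonneg_left h3 (Nat.cast_nonneg _)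
        _ = (n.choose k : ℝ) := mul_one _
    have h3 : ∑ k ∈ range (n + 1), (n.choose k : ℝ) = 2 ^ n := by
      exact_mod_cast Nat.sum_range_choose n
    have h4 : (2 : ℝ) ^ n ≤ 2 ^ n0 := pow_le_pow_right₀ (by norm_num) hn.le
    linarith

theorem choose_bound (n k : ℕ) (hk : k ≤ n) : k * (n - k) ≤ n.choose 2 := by
  rcases Nat.lt_or_ge n 2 with h | h
  · have : k * (n - k) = 0 := by
      interval_cases n
      · have : k = 0 := by omega
        simp [this]
      · interval_cases k <;> simp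
    omega
  · exact lam_le h hk

theorem gN1 : G_N1 := by
  intro c hc
  obtain ⟨K, hK1, hK⟩ := sum_bound (Real.exp (-(c / 4))) (Real.exp_pos _).le
    (by
      rw [← Real.exp_zero]
      exact Real.exp_lt_exp.mpr (by linarith))
  refine ⟨K, hK1, fun n z hz hre => ?_⟩
  set a := ‖1 + z‖ with ha
  set b := ‖1 - z‖ with hb
  have ha0 : 0 ≤ a := norm_nonneg _
  have hb0 : 0 ≤ b := norm_nonneg _
  have ha32 : a ≤ 3 / 2 := by
    calc a ≤ ‖(1 : ℂ)‖ + ‖z‖ := norm_add_le _ _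
      _ ≤ 3 / 2 := by rw [norm_one]; linarith
  have hab : a ^ 2 - b ^ 2 = 4 * z.re := by
    rw [ha, hb, ← Complex.normSq_eq_norm_sq, ← Complex.normSq_eq_norm_sq,
      Complex.normSq_apply, Complex.normSq_apply]
    simp only [Complex.add_re, Complex.add_im, Complex.sub_re, Complex.sub_im, Complex.one_re,
      Complex.one_im]
    ring
  have ha2 : a ^ 2 ≤ 9 / 4 := by nlinarith
  have hb2 : b ^ 2 ≤ a ^ 2 * Real.exp (-c) := by
    have h1 : 1 - c ≤ Real.exp (-c) := by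
      have := Real.add_one_le_exp (-c)
      linarith
    have h2 : a ^ 2 * (1 - c) ≤ a ^ 2 * Real.exp (-c) :=
      mul_le_mul_of_nonneg_left h1 (sq_nonneg a)
    nlinarith
  have hρ : Real.exp (-(c / 4)) ^ 2 = Real.exp (-(c / 2)) := by
    rw [← Real.exp_nat_mul]
    congr 1
    push_cast
    ring
  have hbρ : b ≤ a * Real.exp (-(c / 4)) ^ 2 := by
    rw [hρ]
    refine le_of_sq_le_sq ?_ (by positivity)
    rw [mul_pow, ← Real.exp_nat_mul]
    calc b ^ 2 ≤ a ^ 2 * Real.exp (-c) := hb2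
      _ = a ^ 2 * Real.exp ((2 : ℕ) * (-(c / 2))) := by
        congr 2
        push_cast
        ring
  have hmain := even_graph_sum z n
  have h1 : (2 : ℂ) ^ n * Wn n z = ∑ k ∈ range (n + 1), (n.choose k : ℂ) *
      (1 + z) ^ (n.choose 2 - k * (n - k)) * (1 - z) ^ (k * (n - k)) := by
    rw [← hmain]
    unfold Wn
    congr 1
    refine sum_congr rfl fun G _ => ?_
    unfold wG
    by_cases h : ∀ v, Even (G.neighborSet v).ncard
    · rw [if_pos h, if_pos h]
    · rw [if_neg h, if_neg h]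
  have h2 : 2 ^ n * ‖Wn n z‖ = ‖(2 : ℂ) ^ n * Wn n z‖ := by
    rw [norm_mul, norm_pow]
    norm_num
  rw [h2, h1]
  calc ‖∑ k ∈ range (n + 1), (n.choose k : ℂ) *
      (1 + z) ^ (n.choose 2 - k * (n - k)) * (1 - z) ^ (k * (n - k))‖
      ≤ ∑ k ∈ range (n + 1), ‖(n.choose k : ℂ) *
          (1 + z) ^ (n.choose 2 - k * (n - k)) * (1 - z) ^ (k * (n - k))‖ := norm_sum_le _ _
    _ ≤ ∑ k ∈ range (n + 1), ((n.choose k : ℝ) *
          (Real.exp (-(c / 4)) ^ 2) ^ (k * (n - k))) * a ^ (n.choose 2) := by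
        refine sum_le_sum fun k hk => ?_
        have hkn : k ≤ n := Nat.lt_succ_iff.mp (mem_range.mp hk)
        have hle := choose_bound n k hkn
        rw [norm_mul, norm_mul, norm_pow, norm_pow, Complex.norm_natCast, ← ha, ← hb]
        have h3 : b ^ (k * (n - k)) ≤ a ^ (k * (n - k)) *
            (Real.exp (-(c / 4)) ^ 2) ^ (k * (n - k)) := by
          rw [← mul_pow]
          exact pow_le_pow_left₀ hb0 hbρ _
        calc (n.choose k : ℝ) * a ^ (n.choose 2 - k * (n - k)) * b ^ (k * (n - k))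
            ≤ (n.choose k : ℝ) * a ^ (n.choose 2 - k * (n - k)) * (a ^ (k * (n - k)) *
              (Real.exp (-(c / 4)) ^ 2) ^ (k * (n - k))) :=
              mul_le_mul_of_nonneg_left h3 (by positivity)
          _ = ((n.choose k : ℝ) * (Real.exp (-(c / 4)) ^ 2) ^ (k * (n - k))) *
              (a ^ (n.choose 2 - k * (n - k)) * a ^ (k * (n - k))) := by ring
          _ = ((n.choose k : ℝ) * (Real.exp (-(c / 4)) ^ 2) ^ (k * (n - k))) *
              a ^ (n.choose 2) := by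
              rw [← pow_add, Nat.sub_add_cancel hle]
    _ = (∑ k ∈ range (n + 1), (n.choose k : ℝ) *
          (Real.exp (-(c / 4)) ^ 2) ^ (k * (n - k))) * a ^ (n.choose 2) := by
        rw [sum_mul]
    _ ≤ K * a ^ (n.choose 2) := mul_le_mul_of_nonneg_right (hK n) (by positivity)

end Pool.Agent.Helper36.EG
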